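import Mathlib

/-!
Power diagrams of point-finite families of balls in a real Hilbert space: basic facts.
-/

set_option autoImplicit false

open Set Filter Topology

namespace Pool.Agent.H667Z.PF

variable {E : Type*} [NormedAddCommGroup E] [InnerProductSpace ℝ E]

/-- depth of the point `y` in the ball `p` (minus the power of the point). -/
def dp (p : E × ℝ) (y : E) : ℝ := p.2 ^ 2 - ‖y - p.1‖ ^ 2

/-- the largest depth. -/
noncomputable def ht (A : Set (E × ℝ)) (y : E) : ℝ := sSup ((fun p => dp p y) '' A)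

omit [InnerProductSpace ℝ E] in
lemma mem_ball_iff {p : E × ℝ} (hp : 0 < p.2) (y : E) :
    y ∈ Metric.closedBall p.1 p.2 ↔ 0 ≤ dp p y := by
  rw [Metric.mem_closedBall, dist_eq_norm, dp, sub_nonneg]
  exact (pow_le_pow_iff_left₀ (norm_nonneg _) hp.le two_ne_zero).symm

omit [InnerProductSpace ℝ E] in
lemma continuous_dp (p : E × ℝ) : Continuous (dp p) := by
  unfold dp; fun_prop

lemma dp_add (p : E × ℝ) (y v : E) :
    dp p (y + v) = dp p y - 2 * inner ℝ (y - p.1) v - ‖v‖ ^ 2 := by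
  unfold dp
  have : y + v - p.1 = (y - p.1) + v := by abel
  rw [this, norm_add_sq_real]; ring

lemma dp_line (p : E × ℝ) (y v : E) (s : ℝ) :
    dp p (y + s • v) = dp p y - 2 * s * inner ℝ (y - p.1) v - s ^ 2 * ‖v‖ ^ 2 := by
  rw [dp_add, inner_smul_right, norm_smul, mul_pow, Real.norm_eq_abs, sq_abs]; ring

/-- point-finiteness -/
def PFin (S : Set (E × ℝ)) : Prop := ∀ x : E, {p ∈ S | 0 ≤ dp p x}.Finite

omit [InnerProductSpace ℝ E] in
lemma PFin.mono {S A : Set (E × ℝ)} (h : PFin S) (hA : A ⊆ S) : PFin A :=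
  fun x => (h x).subset fun _ hp => ⟨hA hp.1, hp.2⟩

omit [InnerProductSpace ℝ E] in
lemma PFin.bdd {A : Set (E × ℝ)} (h : PFin A) (y : E) :
    BddAbove ((fun p => dp p y) '' A) := by
  obtain ⟨b, hb⟩ := ((h y).image (fun p => dp p y)).bddAbove
  refine ⟨max b 0, ?_⟩
  rintro _ ⟨p, hp, rfl⟩
  by_cases h0 : 0 ≤ dp p y
  · exact le_max_of_le_left (hb ⟨p, ⟨hp, h0⟩, rfl⟩)
  · exact le_max_of_le_right (le_of_lt (not_le.mp h0))

omit [InnerProductSpace ℝ E] in
lemma PFin.le_ht {A : Set (E × ℝ)} (h : PFin A) {p : E × ℝ} (hp : p ∈ A) (y : E) :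
    dp p y ≤ ht A y := le_csSup (h.bdd y) ⟨p, hp, rfl⟩

omit [InnerProductSpace ℝ E] in
lemma ht_le {A : Set (E × ℝ)} (hA : A.Nonempty) {y : E} {b : ℝ} (hb : ∀ p ∈ A, dp p y ≤ b) :
    ht A y ≤ b := by
  refine csSup_le (hA.image _) ?_
  rintro _ ⟨p, hp, rfl⟩
  exact hb p hp

omit [InnerProductSpace ℝ E] in
lemma PFin.attained {A : Set (E × ℝ)} (h : PFin A) {y : E} (h0 : ∃ p ∈ A, 0 ≤ dp p y) :
    ∃ p ∈ A, dp p y = ht A y := by
  obtain ⟨p0, hp0, h0⟩ := h0
  obtain ⟨p, hp, hmax⟩ := (h y).exists_maximalFor (fun p => dp p y) _ ⟨p0, hp0, h0⟩ |>.imp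
    (fun p hp => (⟨hp.prop, fun q hq => hp.le hq⟩ :
      p ∈ {p ∈ A | 0 ≤ dp p y} ∧ ∀ q ∈ {p ∈ A | 0 ≤ dp p y}, dp q y ≤ dp p y))
  refine ⟨p, hp.1, le_antisymm (h.le_ht hp.1 y) (ht_le ⟨p, hp.1⟩ fun q hq => ?_)⟩
  by_cases hq0 : 0 ≤ dp q y
  · exact hmax q ⟨hq, hq0⟩
  · exact (le_of_lt (not_le.mp hq0)).trans hp.2

omit [InnerProductSpace ℝ E] in
lemma PFin.attained_pos {A : Set (E × ℝ)} (h : PFin A) (hA : A.Nonempty) {y : E}
    (h0 : 0 < ht A y) : ∃ p ∈ A, dp p y = ht A y := by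
  apply h.attained
  by_contra hc
  push Not at hc
  exact absurd (ht_le hA fun p hp => (hc p hp).le) (not_le.mpr h0)

lemma PFin.continuous_line {A : Set (E × ℝ)} (h : PFin A) (hA : A.Nonempty) (y v : E) :
    Continuous fun s : ℝ => ht A (y + s • v) := by
  have hconv : ConvexOn ℝ univ fun s : ℝ => ht A (y + s • v) + s ^ 2 * ‖v‖ ^ 2 := by
    refine ⟨convex_univ, fun s _ t _ a b ha hb hab => ?_⟩
    simp only [smul_eq_mul]
    rw [← le_sub_iff_add_le]
    refine ht_le hA fun p hp => ?_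
    have h1 := h.le_ht hp (y + s • v)
    have h2 := h.le_ht hp (y + t • v)
    rw [dp_line] at h1 h2 ⊢
    have h3 := mul_le_mul_of_nonneg_left h1 ha
    have h4 := mul_le_mul_of_nonneg_left h2 hb
    have hb' : b = 1 - a := by linarith
    subst hb'
    nlinarith
  have hc := continuousOn_univ.mp (hconv.continuousOn isOpen_univ)
  have : (fun s : ℝ => ht A (y + s • v)) =
      fun s : ℝ => (ht A (y + s • v) + s ^ 2 * ‖v‖ ^ 2) - s ^ 2 * ‖v‖ ^ 2 := by
    funext s; ring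
  rw [this]
  exact hc.sub (by fun_prop)

/-- nested nonempty bounded closed convex sets have a common point. -/
lemma nested [CompleteSpace E] (K : ℕ → Set E) (hanti : Antitone K) (hne : ∀ n, (K n).Nonempty)
    (hcl : ∀ n, IsClosed (K n)) (hcv : ∀ n, Convex ℝ (K n)) (R : ℝ) (hb : ∀ x ∈ K 0, ‖x‖ ≤ R) :
    ∃ x, ∀ n, x ∈ K n := by
  have : ∀ n, ∃ v ∈ K n, ∀ w ∈ K n, inner ℝ ((0 : E) - v) (w - v) ≤ 0 := by
    intro n
    obtain ⟨v, hv, hv'⟩ := exists_norm_eq_iInf_of_complete_convex (hne n) (hcl n).isComplete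
      (hcv n) 0
    exact ⟨v, hv, (norm_eq_iInf_iff_real_inner_le_zero (hcv n) hv).mp hv'⟩
  choose x hx hx' using this
  have key : ∀ n m, n ≤ m → ‖x m - x n‖ ^ 2 ≤ ‖x m‖ ^ 2 - ‖x n‖ ^ 2 := by
    intro n m hnm
    have h1 := hx' n (x m) (hanti hnm (hx m))
    rw [zero_sub, inner_neg_left] at h1
    have h2 : ‖x m‖ ^ 2 = ‖x n‖ ^ 2 + 2 * inner ℝ (x n) (x m - x n) + ‖x m - x n‖ ^ 2 := by
      rw [← norm_add_sq_real]; congr 2; abel
    linarith
  have hmono : Monotone fun n => ‖x n‖ ^ 2 := by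
    intro n m hnm
    have := key n m hnm
    have h2 := sq_nonneg ‖x m - x n‖
    simp only; linarith
  have hbdd : BddAbove (range fun n => ‖x n‖ ^ 2) := by
    refine ⟨R ^ 2, ?_⟩
    rintro _ ⟨n, rfl⟩
    exact pow_le_pow_left₀ (norm_nonneg _) (hb _ (hanti (Nat.zero_le n) (hx n))) 2
  have hlim := tendsto_atTop_ciSup hmono hbdd
  set L := ⨆ n, ‖x n‖ ^ 2 with hL
  have hcau : CauchySeq x := by
    refine cauchySeq_of_le_tendsto_0' (fun n => Real.sqrt (L - ‖x n‖ ^ 2)) (fun n m hnm => ?_) ?_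
    · rw [dist_comm, dist_eq_norm]
      apply Real.le_sqrt_of_sq_le
      have := key n m hnm
      have h2 : ‖x m‖ ^ 2 ≤ L := le_ciSup hbdd m
      linarith
    · have : Tendsto (fun n => L - ‖x n‖ ^ 2) atTop (𝓝 (L - L)) := tendsto_const_nhds.sub hlim
      rw [sub_self] at this
      simpa using this.sqrt
  obtain ⟨z, hz⟩ := cauchySeq_tendsto_of_complete hcau
  refine ⟨z, fun n => (hcl n).mem_of_tendsto hz ?_⟩
  filter_upwards [eventually_ge_atTop n] with m hm using hanti hm (hx m)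

lemma exists_closed_countable {X : Type*} (A0 : Set X) (hA0 : A0.Countable)
    (F : X → X → Set X) (hF : ∀ a b, (F a b).Countable) :
    ∃ D : Set X, D.Countable ∧ A0 ⊆ D ∧ ∀ a ∈ D, ∀ b ∈ D, F a b ⊆ D := by
  let T : Set X → Set X := fun A => A ∪ ⋃ a ∈ A, ⋃ b ∈ A, F a b
  let D : ℕ → Set X := fun n => T^[n] A0
  have hD : ∀ n, D (n + 1) = T (D n) := fun n => Function.iterate_succ_apply' T n A0
  have hc : ∀ n, (D n).Countable := by
    intro n
    induction n with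
    | zero => exact hA0
    | succ n ih =>
      rw [hD]
      exact ih.union (ih.biUnion fun a _ => ih.biUnion fun b _ => hF a b)
  have hm : Monotone D := monotone_nat_of_le_succ fun n => by
    rw [hD]; exact subset_union_left
  refine ⟨⋃ n, D n, countable_iUnion hc, subset_iUnion D 0, ?_⟩
  intro a ha b hb x hx
  obtain ⟨n, hn⟩ := mem_iUnion.mp ha
  obtain ⟨m, hm'⟩ := mem_iUnion.mp hb
  refine mem_iUnion.mpr ⟨max n m + 1, ?_⟩
  rw [hD]
  right
  exact mem_iUnion₂.mpr ⟨a, hm (le_max_left n m) hn,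
    mem_iUnion₂.mpr ⟨b, hm (le_max_right n m) hm', hx⟩⟩

/-- in a subspace that is not finite-dimensional there is a unit vector orthogonal to finitely
many given vectors. -/
lemma exists_orth (H : Submodule ℝ E) (hH : ¬ FiniteDimensional ℝ H) (F : Set E)
    (hF : F.Finite) : ∃ e ∈ H, ‖e‖ = 1 ∧ ∀ f ∈ F, inner ℝ f e = 0 := by
  have := hF.to_subtype
  let L : H →ₗ[ℝ] (F → ℝ) := LinearMap.pi fun f : F => (innerₗ E (f : E)).comp H.subtype
  have hL : ¬ Function.Injective L := fun hi => hH (FiniteDimensional.of_injective L hi)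
  rw [← LinearMap.ker_eq_bot, Submodule.eq_bot_iff] at hL
  push Not at hL
  obtain ⟨v, hv, hv0⟩ := hL
  have hv0' : (v : E) ≠ 0 := fun h => hv0 (Subtype.ext h)
  have hn : ‖(v : E)‖ ≠ 0 := norm_ne_zero_iff.mpr hv0'
  refine ⟨‖(v : E)‖⁻¹ • (v : E), H.smul_mem _ v.2, ?_, fun f hf => ?_⟩
  · rw [norm_smul, norm_inv, norm_norm, inv_mul_cancel₀ hn]
  · have := congrFun (LinearMap.mem_ker.mp hv) ⟨f, hf⟩
    simp only [L, LinearMap.pi_apply, LinearMap.comp_apply, Submodule.subtype_apply,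
      innerₗ_apply_apply, Pi.zero_apply] at this
    rw [inner_smul_right, this, mul_zero]

end Pool.Agent.H667Z.PF
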