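import Pool.Agent.H667Z.PF.Weak

/-!
No infinite-dimensional real Hilbert space has a point-finite covering by closed balls of positive
radii.
-/

set_option autoImplicit false

open Set Filter Topology

namespace Pool.Agent.H667Z.PF

variable {E : Type*} [NormedAddCommGroup E] [InnerProductSpace ℝ E]

lemma exists_li (hE : ¬ FiniteDimensional ℝ E) : ∃ u : ℕ → E, LinearIndependent ℝ u := by
  let b := Module.Basis.ofVectorSpace ℝ E
  have : Infinite (Module.Basis.ofVectorSpaceIndex ℝ E) := by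
    by_contra hc
    rw [not_infinite_iff_finite] at hc
    exact hE (Module.Finite.of_basis b)
  exact ⟨b ∘ Infinite.natEmbedding _, b.linearIndependent.comp _ (Infinite.natEmbedding _).injective⟩

/-- the closure of a set closed under addition and rational multiples, as a subspace. -/
def clSub (D : Set E) (h0 : (0 : E) ∈ D) (hadd : ∀ a ∈ D, ∀ b ∈ D, a + b ∈ D)
    (hsm : ∀ a ∈ D, ∀ q : ℚ, (q : ℝ) • a ∈ D) : Submodule ℝ E where
  carrier := closure D
  zero_mem' := subset_closure h0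
  add_mem' := fun ha hb => map_mem_closure₂ continuous_add ha hb hadd
  smul_mem' := fun r x hx => by
    have hr : r ∈ closure (range ((↑) : ℚ → ℝ)) := Rat.denseRange_cast r
    refine map_mem_closure₂ (f := fun (r : ℝ) (x : E) => r • x) continuous_smul hr hx ?_
    rintro _ ⟨q, rfl⟩ b hb
    exact hsm b hb q

lemma tangent (H : Submodule ℝ E) (q : E × ℝ) (hq : ∀ z ∈ H, dp q z ≤ 0) (z : E) (hz : z ∈ H)
    (h0 : 0 ≤ dp q z) (v : E) (hv : v ∈ H) : inner ℝ (z - q.1) v = 0 := by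
  set I := inner ℝ (z - q.1) v with hI
  set N := ‖v‖ ^ 2 with hN
  have hN0 : 0 ≤ N := sq_nonneg _
  have h1 := hq (z + (-I / (N + 1)) • v) (H.add_mem hz (H.smul_mem _ hv))
  rw [dp_line, ← hI, ← hN] at h1
  set t := I / (N + 1) with ht
  have hIt : I = t * (N + 1) := by rw [ht]; field_simp
  have h2 : -I / (N + 1) = -t := by rw [ht]; ring
  rw [h2, hIt] at h1
  have h3 : t ^ 2 * (N + 2) ≤ 0 := by nlinarith
  have h4 : t ^ 2 ≤ 0 := by
    by_contra hc
    push Not at hc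
    nlinarith
  have h5 : t = 0 := by
    have := le_antisymm h4 (sq_nonneg t)
    exact pow_eq_zero_iff two_ne_zero |>.mp this
  rw [hIt, h5, zero_mul]

theorem no_cover [CompleteSpace E] (hE : ¬ FiniteDimensional ℝ E) {S : Set (E × ℝ)}
    (hpos : ∀ p ∈ S, 0 < p.2) (hcov : ∀ x, ∃ p ∈ S, 0 ≤ dp p x) (hS : PFin S) : False := by
  classical
  have hnn : ∀ x, 0 ≤ ht S x := fun x => by
    obtain ⟨q, hq, h0⟩ := hcov x
    exact h0.trans (hS.le_ht hq x)
  have hne : S.Nonempty := by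
    obtain ⟨q, hq, -⟩ := hcov 0
    exact ⟨q, hq⟩
  let G : E → ℚ → Set E := fun w ε => {y | 0 < ht S y ∧ ‖y - w‖ ^ 2 + ht S y < ε}
  have hm : ∀ w ε, ∃ y, (G w ε).Nonempty → y ∈ G w ε ∧ ∀ y' ∈ G w ε, ¬ sg S y ⊂ sg S y' := by
    intro w ε
    by_cases h : (G w ε).Nonempty
    · obtain ⟨y, hy⟩ := exists_maximal hS hpos hcov _ h
      exact ⟨y, fun _ => hy⟩
    · exact ⟨0, fun h' => absurd h' h⟩
  choose m hm using hm
  obtain ⟨u, hu⟩ := exists_li hE
  obtain ⟨D, hDc, hD0, hDF⟩ := exists_closed_countable (insert (0 : E) (range u))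
    ((countable_range u).insert 0)
    (fun a b => {a + b} ∪ range (fun q : ℚ => (q : ℝ) • a) ∪
      Prod.fst '' {p ∈ S | 0 ≤ dp p a} ∪ range (m a))
    (fun a b => (((countable_singleton _).union (countable_range _)).union
      ((hS a).countable.image _)).union (countable_range _))
  have h0D : (0 : E) ∈ D := hD0 (by simp)
  let H : Submodule ℝ E := clSub D h0D (fun a ha b hb => hDF a ha b hb (by simp))
    (fun a ha q => hDF a ha a ha (Or.inl (Or.inl (Or.inr ⟨q, rfl⟩))))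
  have hHD : (H : Set E) = closure D := rfl
  have hDH : ∀ d ∈ D, d ∈ H := fun d hd => subset_closure hd
  have hHc : IsClosed (H : Set E) := isClosed_closure
  have hcen : ∀ d ∈ D, ∀ p ∈ S, 0 ≤ dp p d → p.1 ∈ D := fun d hd p hp h =>
    hDF d hd d hd (Or.inl (Or.inr ⟨p, ⟨hp, h⟩, rfl⟩))
  have hmD : ∀ w ∈ D, ∀ ε, m w ε ∈ D := fun w hw ε => hDF w hw w hw (Or.inr ⟨ε, rfl⟩)
  have hH : ¬ FiniteDimensional ℝ H := by
    intro hfin
    let u' : ℕ → H := fun n => ⟨u n, hDH _ (hD0 (by simp))⟩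
    have hu' : LinearIndependent ℝ u' := LinearIndependent.of_comp H.subtype hu
    have := hu'.finite_of_isNoetherian
    exact not_finite ℕ
  let S0 : Set (E × ℝ) := ⋃ d ∈ D, {p ∈ S | 0 ≤ dp p d}
  have hS0c : S0.Countable := hDc.biUnion fun d _ => (hS d).countable
  have hS0ne : S0.Nonempty := by
    obtain ⟨q, hq, h0⟩ := hcov 0
    exact ⟨q, mem_iUnion₂.mpr ⟨0, h0D, hq, h0⟩⟩
  obtain ⟨B, hB⟩ := hS0c.exists_eq_range hS0ne
  have hBS : ∀ n, B n ∈ S := fun n => by
    have : B n ∈ S0 := hB ▸ mem_range_self n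
    obtain ⟨d, -, h, -⟩ := mem_iUnion₂.mp this
    exact h
  have hout : ∀ p ∈ S, p ∉ S0 → ∀ z ∈ H, dp p z ≤ 0 := by
    intro p hp hp0 z hz
    have hcl : IsClosed {z | dp p z ≤ 0} := isClosed_le (continuous_dp p) continuous_const
    refine hcl.closure_subset_iff.mpr (fun d hd => ?_) hz
    by_contra hc
    exact hp0 (mem_iUnion₂.mpr ⟨d, hd, hp, (not_le.mp hc).le⟩)
  have hU : ∀ y0 ∈ H, ∀ R, ht S y0 < R →
      ∃ z ∈ H, ‖z - y0‖ ^ 2 ≤ R ∧ ht S z ≤ 0 ∧ ∀ n, dp (B n) z < 0 := by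
    intro y0 hy0 R hR
    obtain ⟨z, hz, h1, h2⟩ := weak_baire hS hcov H hHc hH B hBS y0 hy0 R hR
    obtain ⟨q, hq, hq'⟩ := hS.attained (hcov z)
    have hq0 : q ∉ S0 := by
      rw [hB]
      rintro ⟨n, rfl⟩
      exact absurd hq' (h2 n).ne
    have h3 : ht S z ≤ 0 := hq' ▸ hout q hq hq0 z hz
    exact ⟨z, hz, by linarith [hnn z], h3, fun n => (h2 n).trans_le h3⟩
  let Z : Set E := {z | z ∈ H ∧ ht S z ≤ 0}
  have hZc : IsClosed Z := by
    have : Z = (H : Set E) ∩ ⋂ p ∈ S, {z | dp p z ≤ 0} := by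
      ext z
      simp only [Z, mem_ofPred_eq, mem_inter_iff, SetLike.mem_coe, mem_iInter]
      exact and_congr_right fun _ =>
        ⟨fun h p hp => (hS.le_ht hp z).trans h, fun h => ht_le hne h⟩
    rw [this]
    exact hHc.inter (isClosed_biInter fun p _ => isClosed_le (continuous_dp p) continuous_const)
  have hZcomp : CompleteSpace Z := hZc.completeSpace_coe
  have hZne : Nonempty Z := by
    obtain ⟨z, hz, -, h, -⟩ := hU 0 H.zero_mem (ht S 0 + 1) (by linarith)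
    exact ⟨⟨z, hz, h⟩⟩
  let U : ℕ → Set E := fun k =>
    {z | z ∈ H ∧ ∃ q ∈ S, q ∉ S0 ∧ 0 ≤ dp q z ∧ 1 / ((k : ℝ) + 1) ≤ q.2}
  let f : ℕ ⊕ ℕ → Set Z := fun i =>
    Sum.elim (fun n => {z : Z | 0 ≤ dp (B n) z}) (fun k => {z : Z | (z : E) ∈ closure (U k)}) i
  have hfc : ∀ i, IsClosed (f i) := by
    rintro (n | k)
    · exact isClosed_le continuous_const ((continuous_dp _).comp continuous_subtype_val)
    · exact isClosed_closure.preimage continuous_subtype_val
  have hfU : ⋃ i, f i = univ := by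
    refine eq_univ_of_forall fun z => mem_iUnion.mpr ?_
    obtain ⟨q, hq, h0⟩ := hcov z
    by_cases hq0 : q ∈ S0
    · rw [hB] at hq0
      obtain ⟨n, rfl⟩ := hq0
      exact ⟨Sum.inl n, h0⟩
    · obtain ⟨k, hk⟩ := exists_nat_one_div_lt (hpos q hq)
      exact ⟨Sum.inr k, subset_closure ⟨z.2.1, q, hq, hq0, h0, hk.le⟩⟩
  obtain ⟨i, z0, hz0⟩ := nonempty_interior_of_iUnion_of_closed hfc hfU
  obtain ⟨η, hη, hball⟩ := Metric.mem_nhds_iff.mp (mem_interior_iff_mem_nhds.mp hz0)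
  have hball' : ∀ z (hz : z ∈ Z), ‖z - z0‖ < η → (⟨z, hz⟩ : Z) ∈ f i := fun z hz h =>
    hball (by rw [Metric.mem_ball, Subtype.dist_eq, dist_eq_norm]; exact h)
  rcases i with n | k
  · obtain ⟨z, hz, h1, h2, h3⟩ := hU z0 z0.2.1 ((η / 2) ^ 2)
      (lt_of_le_of_lt z0.2.2 (by positivity))
    have h4 : ‖z - z0‖ ≤ η / 2 :=
      (pow_le_pow_iff_left₀ (norm_nonneg _) (by linarith) two_ne_zero).mp h1
    exact absurd (hball' z ⟨hz, h2⟩ (by linarith)) (not_le.mpr (h3 n))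
  · have hk : (0 : ℝ) < (k : ℝ) + 1 := by positivity
    obtain ⟨ε, hε0, hε⟩ := exists_rat_btwn
      (show (0 : ℝ) < min ((η / 4) ^ 2) ((1 / ((k : ℝ) + 1)) ^ 2 / 4) by positivity)
    have hε1 : (ε : ℝ) < (η / 4) ^ 2 := hε.trans_le (min_le_left _ _)
    have hε2 : (ε : ℝ) < (1 / ((k : ℝ) + 1)) ^ 2 / 4 := hε.trans_le (min_le_right _ _)
    obtain ⟨w, hw1, hwD⟩ : ∃ w, w ∈ {w : E | ‖(z0 : E) - w‖ ^ 2 < ε} ∧ w ∈ D :=
      mem_closure_iff.mp (z0.2.1 : (z0 : E) ∈ closure D) _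
        (isOpen_lt (by fun_prop) continuous_const) (by simpa using hε0)
    have hGne : (G w ε).Nonempty := by
      obtain ⟨p, hp, hp0⟩ := hcov z0
      have hcont : Continuous fun s : ℝ =>
          ‖(z0 : E) + s • (p.1 - z0) - w‖ ^ 2 + ht S (z0 + s • (p.1 - z0)) :=
        Continuous.add (by fun_prop) (hS.continuous_line hne _ _)
      have hev : ∀ᶠ s in 𝓝 (0 : ℝ),
          ‖(z0 : E) + s • (p.1 - z0) - w‖ ^ 2 + ht S (z0 + s • (p.1 - z0)) < ε := by
        apply hcont.continuousAt.eventually_lt continuousAt_const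
        have := z0.2.2
        have hw1' : ‖(z0 : E) - w‖ ^ 2 < ε := hw1
        simp only [zero_smul, add_zero]
        linarith
      have hev2 : ∀ᶠ s in 𝓝[>] (0 : ℝ), s ∈ Ioo (0 : ℝ) 1 := Ioo_mem_nhdsGT one_pos
      obtain ⟨s, hs1, hs2⟩ := ((hev.filter_mono nhdsWithin_le_nhds).and hev2).exists
      refine ⟨_, lt_of_lt_of_le ?_ (hS.le_ht hp _), hs1⟩
      have h1 : (z0 : E) + s • (p.1 - z0) - p.1 = (1 - s) • ((z0 : E) - p.1) := by module
      unfold dp at hp0 ⊢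
      rw [h1, norm_smul, mul_pow, Real.norm_eq_abs, sq_abs]
      have h2 : (1 - s) ^ 2 < 1 := by nlinarith [hs2.1, hs2.2]
      have h3 : 0 < p.2 ^ 2 := pow_pos (hpos p hp) 2
      nlinarith [sq_nonneg ‖(z0 : E) - p.1‖, sq_nonneg (1 - s)]
    obtain ⟨⟨hy0, hyε⟩, hymax⟩ := hm w ε hGne
    set y := m w ε with hy
    have hyD : y ∈ D := hmD w hwD ε
    set τ := ht S y with hτ
    obtain ⟨z, hz, h1, h2, -⟩ := hU y (hDH y hyD) (3 / 2 * τ) (by linarith)
    have hτε : τ < ε := by linarith [sq_nonneg ‖y - w‖]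
    have hzη : ‖z - z0‖ < η := by
      have a1 : ‖z - y‖ ≤ η / 2 :=
        (pow_le_pow_iff_left₀ (norm_nonneg _) (by linarith) two_ne_zero).mp (by nlinarith)
      have a2 : ‖y - w‖ < η / 4 :=
        lt_of_pow_lt_pow_left₀ 2 (by linarith) (by linarith)
      have a3 : ‖(z0 : E) - w‖ < η / 4 :=
        lt_of_pow_lt_pow_left₀ 2 (by linarith) (lt_trans hw1 hε1)
      have a4 : z - z0 = (z - y) + (y - w) - (z0 - w) := by abel
      have a5 := norm_sub_le ((z - y) + (y - w)) ((z0 : E) - w)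
      have a6 := norm_add_le (z - y) (y - w)
      rw [a4]; linarith
    have hzU : z ∈ closure (U k) := hball' z ⟨hz, h2⟩ hzη
    obtain ⟨z', hz'1, hz'H, q, hq, hq0, hqz, hqr⟩ :
        ∃ z', z' ∈ {x : E | ‖y - x‖ ^ 2 < 2 * τ} ∧ z' ∈ U k :=
      mem_closure_iff.mp hzU _ (isOpen_lt (by fun_prop) continuous_const)
        (by simp only [mem_ofPred_eq]; rw [norm_sub_rev]; linarith)
    have hz'1' : ‖y - z'‖ ^ 2 < 2 * τ := hz'1
    have hr : 0 < q.2 := hpos q hq
    have htan := tangent H q (hout q hq hq0) z' hz'H hqz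
    have hdq : ‖z' - q.1‖ ^ 2 = q.2 ^ 2 := by
      have := le_antisymm (hout q hq hq0 z' hz'H) hqz
      unfold dp at this; linarith
    have hnq : ‖z' - q.1‖ = q.2 := (pow_left_inj₀ (norm_nonneg _) hr.le two_ne_zero).mp hdq
    set e : E := (-q.2⁻¹) • (z' - q.1) with he
    have he1 : ‖e‖ = 1 := by
      rw [he, norm_smul, hnq, norm_neg, norm_inv, Real.norm_eq_abs, abs_of_pos hr,
        inv_mul_cancel₀ hr.ne']
    have heH : ∀ v ∈ H, inner ℝ v e = 0 := fun v hv => by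
      rw [he, inner_smul_right, real_inner_comm, htan v hv, mul_zero]
    set a := (τ + ‖y - z'‖ ^ 2) / (2 * q.2) with ha
    have ha0 : 0 ≤ a := by positivity
    have har : 2 * q.2 * a = τ + ‖y - z'‖ ^ 2 := by rw [ha]; field_simp
    have hyz' : y - z' ∈ H := H.sub_mem (hDH y hyD) hz'H
    have ha2 : a ^ 2 < τ := by
      set κ := 1 / ((k : ℝ) + 1) with hκ
      have hκ0 : 0 < κ := by positivity
      have b1 : κ * a ≤ q.2 * a := mul_le_mul_of_nonneg_right hqr ha0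
      have b2 : κ * a < 3 / 2 * τ := by linarith
      have b3 : (κ * a) ^ 2 ≤ (3 / 2 * τ) ^ 2 := pow_le_pow_left₀ (by positivity) b2.le 2
      have b4 : τ * τ < τ * (κ ^ 2 / 4) := mul_lt_mul_of_pos_left (by linarith) hy0
      have b5 : κ ^ 2 * a ^ 2 < κ ^ 2 * τ := by nlinarith [mul_pos (pow_pos hκ0 2) hy0]
      exact lt_of_mul_lt_mul_left b5 (by positivity)
    have hqy : dp q y = -‖y - z'‖ ^ 2 := by
      have c1 : y = z' + (y - z') := by abel
      have c2 := dp_add q z' (y - z')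
      rw [← c1, htan _ hyz'] at c2
      have := le_antisymm (hout q hq hq0 z' hz'H) hqz
      linarith
    have hqe : inner ℝ (y - q.1) e = -q.2 := by
      have c1 : y - q.1 = (y - z') + (z' - q.1) := by abel
      rw [c1, inner_add_left, heH _ hyz', he, inner_smul_right, real_inner_self_eq_norm_sq, hdq]
      field_simp
      ring
    obtain ⟨s, hs1, hs2, hs3⟩ := new_ball hS y e he1 hy0
      (fun p hp => heH _ (H.sub_mem (hDH y hyD)
        (hDH _ (hcen y hyD p hp.1 (by rw [hp.2]; exact hy0.le)))))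
      a ha0 ha2 q hq (fun h => by
        have := h.2
        rw [hqy] at this
        nlinarith [sq_nonneg ‖y - z'‖])
      (by rw [dp_line, hqy, hqe, he1]; linarith)
    refine hymax (y + s • e) ⟨by rw [hs2]; linarith, ?_⟩ hs3
    have c1 : y + s • e - w = (y - w) + s • e := by abel
    rw [hs2, c1, norm_add_sq_real, inner_smul_right,
      heH _ (H.sub_mem (hDH y hyD) (hDH w hwD)), norm_smul, he1]
    simp only [Real.norm_eq_abs, mul_one, sq_abs, mul_zero, add_zero]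
    linarith

/-- No infinite-dimensional real Hilbert space has a point-finite covering by closed balls. -/
theorem no_pointFinite_cover [CompleteSpace E] (hE : ¬ FiniteDimensional ℝ E) :
    ¬ ∃ S : Set (E × ℝ), (∀ p ∈ S, 0 < p.2) ∧ (∀ x : E, ∃ p ∈ S, x ∈ Metric.closedBall p.1 p.2) ∧
      ∀ x : E, {p ∈ S | x ∈ Metric.closedBall p.1 p.2}.Finite := by
  rintro ⟨S, hpos, hcov, hfin⟩
  refine no_cover hE hpos (fun x => ?_) (fun x => (hfin x).subset ?_)
  · obtain ⟨p, hp, hx⟩ := hcov x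
    exact ⟨p, hp, (mem_ball_iff (hpos p hp) x).mp hx⟩
  · rintro p ⟨hp, hx⟩
    exact ⟨hp, (mem_ball_iff (hpos p hp) x).mpr hx⟩

lemma lp_not_finiteDimensional :
    ¬ FiniteDimensional ℝ (lp (fun _ : ℝ => ℝ) (2 : ENNReal)) := by
  intro hfin
  classical
  have ho : Orthonormal ℝ fun i : ℝ => (lp.single 2 i (1 : ℝ) : lp (fun _ : ℝ => ℝ) (2 : ENNReal)) := by
    rw [orthonormal_iff_ite]
    intro i j
    rw [lp.inner_single_left]
    by_cases h : i = j
    · subst h; simp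
    · simp [h]
  have := ho.linearIndependent.finite_of_isNoetherian
  exact not_finite ℝ

end Pool.Agent.H667Z.PF
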