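import Pool.Agent.H667Z.PF.Basic

/-!
The Lindenstrauss-Phelps type step, maximal cells, and the step to a larger cell.
-/

set_option autoImplicit false

open Set Filter Topology

namespace Pool.Agent.H667Z.PF

variable {E : Type*} [NormedAddCommGroup E] [InnerProductSpace ℝ E]

lemma dp_aff (p : E × ℝ) (y0 z : E) :
    dp p z + ‖z - y0‖ ^ 2 = p.2 ^ 2 - ‖p.1 - y0‖ ^ 2 + 2 * inner ℝ (p.1 - y0) (z - y0) := by
  unfold dp
  have : z - p.1 = (z - y0) - (p.1 - y0) := by abel
  rw [this, norm_sub_sq_real, real_inner_comm]; ring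

lemma convex_aff_le (p : E × ℝ) (y0 : E) (R : ℝ) :
    Convex ℝ {z : E | dp p z + ‖z - y0‖ ^ 2 ≤ R} := by
  intro x hx y hy a b ha hb hab
  simp only [mem_ofPred_eq, dp_aff] at hx hy ⊢
  have : a • x + b • y - y0 = a • (x - y0) + b • (y - y0) := by
    have hb' : b = 1 - a := by linarith
    subst hb'
    module
  rw [this, inner_add_right, inner_smul_right, inner_smul_right]
  have h3 := mul_le_mul_of_nonneg_left hx ha
  have h4 := mul_le_mul_of_nonneg_left hy hb
  have hb' : b = 1 - a := by linarith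
  subst hb'
  nlinarith

lemma dp_sub (p q : E × ℝ) (z : E) :
    dp q z - dp p z = q.2 ^ 2 - ‖q.1‖ ^ 2 - p.2 ^ 2 + ‖p.1‖ ^ 2 + 2 * inner ℝ (q.1 - p.1) z := by
  have h1 := dp_aff p 0 z
  have h2 := dp_aff q 0 z
  simp only [sub_zero] at h1 h2
  rw [inner_sub_left]; linarith

lemma convex_sub_ge (p q : E × ℝ) (η : ℝ) :
    Convex ℝ {z : E | η ≤ dp q z - dp p z} := by
  intro x hx y hy a b ha hb hab
  simp only [mem_ofPred_eq, dp_sub] at hx hy ⊢
  rw [inner_add_right, inner_smul_right, inner_smul_right]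
  have h3 := mul_le_mul_of_nonneg_left hx ha
  have h4 := mul_le_mul_of_nonneg_left hy hb
  have hb' : b = 1 - a := by linarith
  subst hb'
  nlinarith

/-- one step of the weak category argument. -/
lemma weak_step {S : Set (E × ℝ)} (hS : PFin S) (hcov : ∀ x, ∃ p ∈ S, 0 ≤ dp p x)
    (H : Submodule ℝ E) (hH : ¬ FiniteDimensional ℝ H) (y0 : E) (R : ℝ) (z : E) (hz : z ∈ H)
    (hzR : ht S z + ‖z - y0‖ ^ 2 < R) (F : Set E) (hF : F.Finite) (p : E × ℝ) (hp : p ∈ S) :
    ∃ z' ∈ H, ht S z' + ‖z' - y0‖ ^ 2 < R ∧ (∀ f ∈ F, inner ℝ f z' = inner ℝ f z) ∧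
      ∃ q ∈ S, dp p z' < dp q z' := by
  obtain ⟨e, heH, he1, he⟩ := exists_orth H hH (insert (z - y0) (insert (p.1 - y0) F))
    ((hF.insert _).insert _)
  have hne : S.Nonempty := ⟨p, hp⟩
  have hnn : ∀ x, 0 ≤ ht S x := fun x => by
    obtain ⟨q, hq, h0⟩ := hcov x
    exact h0.trans (hS.le_ht hq x)
  set g : ℝ → ℝ := fun s => ht S (z + s • e) + ‖z + s • e - y0‖ ^ 2 with hg
  have hgc : Continuous g := (hS.continuous_line hne z e).add (by fun_prop)
  have hnorm : ∀ s : ℝ, ‖z + s • e - y0‖ ^ 2 = ‖z - y0‖ ^ 2 + s ^ 2 := by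
    intro s
    have : z + s • e - y0 = (z - y0) + s • e := by abel
    rw [this, norm_add_sq_real, inner_smul_right, he _ (by simp), norm_smul, he1]
    simp
  have hg0 : g 0 = ht S z + ‖z - y0‖ ^ 2 := by simp [hg]
  have hR0 : 0 < R := lt_of_le_of_lt (add_nonneg (hnn z) (sq_nonneg _)) hzR
  have hg1 : R ≤ g (R + 1) := by
    simp only [hg, hnorm]
    have := hnn (z + (R + 1) • e)
    nlinarith [sq_nonneg ‖z - y0‖]
  obtain ⟨s, -, hs⟩ : ((g 0 + R) / 2) ∈ g '' Icc 0 (R + 1) :=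
    intermediate_value_Icc (by linarith) hgc.continuousOn ⟨by linarith, by linarith⟩
  refine ⟨z + s • e, H.add_mem hz (H.smul_mem _ heH), ?_, fun f hf => ?_, ?_⟩
  · change g s < R
    linarith
  · rw [inner_add_right, inner_smul_right, he f (by simp [hf])]; simp
  · obtain ⟨q, hq, hq'⟩ := hS.attained (hcov (z + s • e))
    refine ⟨q, hq, ?_⟩
    have h1 := dp_aff p y0 (z + s • e)
    have h2 := dp_aff p y0 z
    have h3 : inner ℝ (p.1 - y0) (z + s • e - y0) = inner ℝ (p.1 - y0) (z - y0) := by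
      have : z + s • e - y0 = (z - y0) + s • e := by abel
      rw [this, inner_add_right, inner_smul_right, he _ (by simp)]; simp
    have h4 := hS.le_ht hp z
    have h5 : g s = dp q (z + s • e) + ‖z + s • e - y0‖ ^ 2 := by rw [hq']
    linarith

/-- Countably many cells of the power diagram cannot cover the sublevel set. -/
lemma weak_baire [CompleteSpace E] {S : Set (E × ℝ)} (hS : PFin S)
    (hcov : ∀ x, ∃ p ∈ S, 0 ≤ dp p x)
    (H : Submodule ℝ E) (hHc : IsClosed (H : Set E)) (hH : ¬ FiniteDimensional ℝ H)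
    (B : ℕ → E × ℝ) (hB : ∀ n, B n ∈ S)
    (y0 : E) (hy0 : y0 ∈ H) (R : ℝ) (hR : ht S y0 < R) :
    ∃ z ∈ H, ht S z + ‖z - y0‖ ^ 2 ≤ R ∧ ∀ n, dp (B n) z < ht S z := by
  classical
  let C : List ((E × ℝ) × (E × ℝ) × ℝ) → Set E := fun L =>
    {z | ∀ c ∈ L, c.2.2 ≤ dp c.2.1 z - dp c.1 z}
  let Good : List ((E × ℝ) × (E × ℝ) × ℝ) → Prop := fun L =>
    (∀ c ∈ L, 0 < c.2.2 ∧ c.2.1 ∈ S) ∧ ∃ z ∈ H, ht S z + ‖z - y0‖ ^ 2 < R ∧ z ∈ C L
  have step : ∀ L, Good L → ∀ p ∈ S, ∃ q η, Good ((p, q, η) :: L) := by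
    rintro L ⟨hL, z, hz, hzR, hzC⟩ p hp
    obtain ⟨z', hz', hz'R, hin, q, hq, hpq⟩ := weak_step hS hcov H hH y0 R z hz hzR
      ((fun c : (E × ℝ) × (E × ℝ) × ℝ => c.2.1.1 - c.1.1) '' {c | c ∈ L})
      ((List.finite_toSet L).image _) p hp
    refine ⟨q, dp q z' - dp p z', ?_, z', hz', hz'R, ?_⟩
    · intro c hc
      rcases List.mem_cons.mp hc with rfl | hc
      · exact ⟨by simpa using hpq, hq⟩
      · exact hL c hc
    · intro c hc
      rcases List.mem_cons.mp hc with rfl | hc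
      · exact le_rfl
      · have := hzC c hc
        rw [dp_sub] at this ⊢
        rw [hin _ ⟨c, hc, rfl⟩]
        exact this
  choose! fq fη hstep using step
  let L : ℕ → List ((E × ℝ) × (E × ℝ) × ℝ) := fun n =>
    Nat.rec [] (fun n L => (B n, fq L (B n), fη L (B n)) :: L) n
  have hLs : ∀ n, L (n + 1) = (B n, fq (L n) (B n), fη (L n) (B n)) :: L n := fun n => rfl
  have hG : ∀ n, Good (L n) := by
    intro n
    induction n with
    | zero => exact ⟨by simp [L], y0, hy0, by simpa using hR, by simp [L, C]⟩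
    | succ n ih => rw [hLs]; exact hstep _ ih _ (hB n)
  let K : ℕ → Set E := fun n =>
    (H : Set E) ∩ ((⋂ p ∈ S, {z | dp p z + ‖z - y0‖ ^ 2 ≤ R}) ∩
      ⋂ c ∈ L n, {z | c.2.2 ≤ dp c.2.1 z - dp c.1 z})
  have hanti : Antitone K := by
    refine antitone_nat_of_succ_le fun n => ?_
    rintro z ⟨h1, h2, h3⟩
    refine ⟨h1, h2, ?_⟩
    simp only [mem_iInter] at h3 ⊢
    intro c hc
    exact h3 c (by rw [hLs]; exact List.mem_cons_of_mem _ hc)
  refine (nested K hanti ?_ ?_ ?_ (‖y0‖ + Real.sqrt R) ?_).elim fun z hz => ?_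
  rotate_right
  · have hzK := hz 0
    have hR' : ∀ p ∈ S, dp p z + ‖z - y0‖ ^ 2 ≤ R := by
      have := hzK.2.1
      simpa only [mem_iInter, mem_ofPred_eq] using this
    refine ⟨z, hzK.1, ?_, fun n => ?_⟩
    · obtain ⟨q, hq, hq'⟩ := hS.attained (hcov z)
      rw [← hq']; exact hR' q hq
    · have h3 := (hz (n + 1)).2.2
      simp only [mem_iInter, mem_ofPred_eq] at h3
      have hc : (B n, fq (L n) (B n), fη (L n) (B n)) ∈ L (n + 1) := by
        rw [hLs]; exact List.mem_cons_self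
      have h4 := h3 _ hc
      have h5 := (hG (n + 1)).1 _ hc
      have h6 := hS.le_ht h5.2 z
      simp only at h4 h5 h6
      linarith [h5.1]
  · intro n
    obtain ⟨-, z, hz, hzR, hzC⟩ := hG n
    refine ⟨z, hz, ?_, ?_⟩
    · simp only [mem_iInter, mem_ofPred_eq]
      intro p hp
      have := hS.le_ht hp z
      linarith
    · simp only [mem_iInter, mem_ofPred_eq]
      exact hzC
  · intro n
    refine hHc.inter (IsClosed.inter (isClosed_biInter fun p _ => ?_)
      (isClosed_iInter fun c => isClosed_iInter fun _ => ?_))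
    · exact isClosed_le ((continuous_dp p).add (by fun_prop)) continuous_const
    · exact isClosed_le continuous_const ((continuous_dp _).sub (continuous_dp _))
  · intro n
    refine H.convex.inter (Convex.inter (convex_iInter₂ fun p _ => convex_aff_le p y0 R)
      (convex_iInter₂ fun c _ => convex_sub_ge _ _ _))
  · rintro x ⟨-, hx, -⟩
    simp only [mem_iInter, mem_ofPred_eq] at hx
    obtain ⟨q, hq, h0⟩ := hcov x
    have h1 := hx q hq
    have h2 : ‖x - y0‖ ≤ Real.sqrt R := Real.le_sqrt_of_sq_le (by linarith)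
    have h3 : ‖x‖ ≤ ‖y0‖ + ‖x - y0‖ := by
      have := norm_add_le y0 (x - y0)
      simpa using this
    linarith

/-- the set of deepest balls at a point -/
def sg (S : Set (E × ℝ)) (y : E) : Set (E × ℝ) := {p ∈ S | dp p y = ht S y}

/-- every nonempty set of points has a member with a maximal set of deepest balls. -/
lemma exists_maximal [CompleteSpace E] {S : Set (E × ℝ)} (hS : PFin S)
    (hpos : ∀ p ∈ S, 0 < p.2) (hcov : ∀ x, ∃ p ∈ S, 0 ≤ dp p x) (G : Set E) (hG : G.Nonempty) :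
    ∃ y ∈ G, ∀ y' ∈ G, ¬ sg S y ⊂ sg S y' := by
  by_contra hc
  push Not at hc
  choose! f hf hf' using hc
  obtain ⟨y0, hy0⟩ := hG
  let y : ℕ → E := fun n => f^[n] y0
  have hys : ∀ n, y (n + 1) = f (y n) := fun n => Function.iterate_succ_apply' f n y0
  have hyG : ∀ n, y n ∈ G := by
    intro n
    induction n with
    | zero => exact hy0
    | succ n ih => rw [hys]; exact hf _ ih
  have hsm : StrictMono fun n => sg S (y n) := strictMono_nat_of_lt_succ fun n => by
    rw [hys]; exact hf' _ (hyG n)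
  have hnn : ∀ x, 0 ≤ ht S x := fun x => by
    obtain ⟨q, hq, h0⟩ := hcov x
    exact h0.trans (hS.le_ht hq x)
  obtain ⟨p0, hp0, hp0'⟩ := hS.attained (hcov (y 0))
  refine (nested (fun n => ⋂ p ∈ sg S (y n), Metric.closedBall p.1 p.2)
    (fun n m hnm => biInter_subset_biInter_left (hsm.monotone hnm)) ?_ ?_ ?_
    (‖p0.1‖ + p0.2) ?_).elim fun x hx => ?_
  rotate_right
  · have hsub : ∀ n, sg S (y n) ⊆ {p ∈ S | 0 ≤ dp p x} := by
      intro n p hp
      have := hx n
      simp only [mem_iInter] at this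
      exact ⟨hp.1, (mem_ball_iff (hpos p hp.1) x).mp (this p hp)⟩
    have hfin : (𝒫 {p ∈ S | 0 ≤ dp p x}).Finite := (hS x).powerset
    exact (infinite_range_of_injective hsm.injective) (hfin.subset (by
      rintro _ ⟨n, rfl⟩; exact hsub n))
  · intro n
    refine ⟨y n, ?_⟩
    simp only [mem_iInter]
    intro p hp
    rw [mem_ball_iff (hpos p hp.1), hp.2]
    exact hnn _
  · intro n
    exact isClosed_biInter fun p _ => Metric.isClosed_closedBall
  · intro n
    exact convex_iInter₂ fun p _ => convex_closedBall _ _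
  · intro x hx
    simp only [mem_iInter] at hx
    have := hx p0 ⟨hp0, hp0'⟩
    rw [Metric.mem_closedBall, dist_eq_norm] at this
    have h3 := norm_add_le p0.1 (x - p0.1)
    simp only [add_sub_cancel] at h3
    linarith

/-- moving orthogonally to the centres of the deepest balls until a new ball is met. -/
lemma new_ball {S : Set (E × ℝ)} (hS : PFin S)
    (y e : E) (he1 : ‖e‖ = 1) (hy : 0 < ht S y) (he : ∀ p ∈ sg S y, inner ℝ (y - p.1) e = 0)
    (a : ℝ) (ha : 0 ≤ a) (ha2 : a ^ 2 < ht S y) (q : E × ℝ) (hq : q ∈ S) (hq' : q ∉ sg S y)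
    (hqa : ht S y - a ^ 2 ≤ dp q (y + a • e)) :
    ∃ s : ℝ, s ^ 2 < ht S y ∧ ht S (y + s • e) = ht S y - s ^ 2 ∧ sg S y ⊂ sg S (y + s • e) := by
  set A := S \ sg S y with hA
  have hAS : PFin A := hS.mono sdiff_subset
  have hAne : A.Nonempty := ⟨q, hq, hq'⟩
  set τ := ht S y with hτ
  have hlt : ht A y < τ := by
    by_contra hc
    push Not at hc
    obtain ⟨p, hp, hp'⟩ := hAS.attained_pos hAne (lt_of_lt_of_le hy hc)
    have := hS.le_ht hp.1 y
    exact hp.2 ⟨hp.1, by linarith⟩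
  set g : ℝ → ℝ := fun s => ht A (y + s • e) + s ^ 2 with hg
  have hgc : Continuous g := (hAS.continuous_line hAne y e).add (by fun_prop)
  have hg0 : g 0 < τ := by simpa [hg] using hlt
  have hga : τ ≤ g a := by
    have := hAS.le_ht (p := q) ⟨hq, hq'⟩ (y + a • e)
    simp only [hg]; linarith
  obtain ⟨s, hs, hs'⟩ : τ ∈ g '' Icc 0 a :=
    intermediate_value_Icc ha hgc.continuousOn ⟨hg0.le, hga⟩
  have hs2 : s ^ 2 ≤ a ^ 2 := pow_le_pow_left₀ hs.1 hs.2 2
  have hsA : ht A (y + s • e) = τ - s ^ 2 := by simp only [hg] at hs'; linarith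
  obtain ⟨p, hp, hp'⟩ := hAS.attained_pos hAne (y := y + s • e) (by rw [hsA]; linarith)
  have hold : ∀ p ∈ sg S y, dp p (y + s • e) = τ - s ^ 2 := by
    intro p hp
    rw [dp_line, he p hp, he1, hp.2]; ring
  have hS' : ht S (y + s • e) = τ - s ^ 2 := by
    apply le_antisymm
    · refine ht_le ⟨q, hq⟩ fun p hp => ?_
      by_cases h : p ∈ sg S y
      · exact (hold p h).le
      · rw [← hsA]; exact hAS.le_ht ⟨hp, h⟩ _
    · rw [← hsA, ← hp']; exact hS.le_ht hp.1 _
  refine ⟨s, by linarith, hS', ?_⟩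
  refine ⟨fun p hp => ⟨hp.1, by rw [hold p hp, hS']⟩, fun h => hp.2 (h ⟨hp.1, ?_⟩)⟩
  rw [hp', hsA, hS']

end Pool.Agent.H667Z.PF
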